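import Pool.Agent.H4R2.AE.Core2

/-! A lower bound for the energy in the massive logarithmic equation. -/

set_option autoImplicit false

open scoped BigOperators
open MeasureTheory

namespace Pool.Agent.Zk60.E2.Eb

open Pool.Agent.H4R2
open Pool.Agent.H4R2.AE (T LapW)

theorem exp_quad (s : ℝ) (hs : |s| ≤ 1 / 4) : Real.exp s + Real.exp (-s) - 2 ≤ 13 / 12 * s ^ 2 := by
  have h1 := Real.cosh_le_exp_half_sq s
  rw [Real.cosh_eq] at h1
  have h2 : s ^ 2 ≤ 1 / 16 := by
    rw [← sq_abs]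
    calc |s| ^ 2 ≤ (1 / 4) ^ 2 := pow_le_pow_left₀ (abs_nonneg _) hs 2
      _ = 1 / 16 := by norm_num
  have h3 : Real.exp (s ^ 2 / 2) ≤ 1 + s ^ 2 / 2 + (s ^ 2 / 2) ^ 2 := by
    have hy0 : 0 ≤ s ^ 2 / 2 := by positivity
    have hy1 : s ^ 2 / 2 ≤ 1 := by linarith
    have := Real.exp_bound' hy0 hy1 (n := 2) (by norm_num)
    simp only [Finset.sum_range_succ, Finset.sum_range_zero, Nat.factorial] at this
    norm_num at this
    nlinarith
  nlinarith

theorem sinh_quad (s : ℝ) : s ^ 2 ≤ s * ((Real.exp s - Real.exp (-s)) / 2) := by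
  rw [← Real.sinh_eq]
  rcases le_total 0 s with h | h
  · have := Real.self_le_sinh_iff.2 h
    nlinarith
  · have := Real.self_le_sinh_iff.2 (by linarith : 0 ≤ -s)
    rw [Real.sinh_neg] at this
    nlinarith

theorem c_nonneg (s : ℝ) : 0 ≤ Real.exp s + Real.exp (-s) - 2 := by
  have h1 := Real.add_one_le_exp s
  have h2 := Real.add_one_le_exp (-s)
  linarith

/-- one edge -/
theorem edge (a b δ : ℝ) (hδ : δ ≤ 1 / 8) (ha : |a| ≤ δ) (hb : |b| ≤ δ) :
    (1 - 13 / 12 * δ) * (b - a) ^ 2 ≤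
      a * (1 - Real.exp (b - a)) + b * (1 - Real.exp (a - b)) := by
  obtain ⟨s, hs⟩ : ∃ s, s = b - a := ⟨_, rfl⟩
  have hb' : b = a + s := by linarith
  have hab : a - b = -s := by linarith
  have ha' := abs_le.1 ha
  have hb2 := abs_le.1 hb
  have hs4 : |s| ≤ 1 / 4 := by
    rw [abs_le]; constructor <;> linarith
  have h1 := exp_quad s hs4
  have h2 := sinh_quad s
  have h3 := c_nonneg s
  rw [hab, ← hs]
  have hδ0 : 0 ≤ δ := (abs_nonneg a).trans ha
  set c := Real.exp s + Real.exp (-s) - 2 with hc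
  have e : a * (1 - Real.exp s) + b * (1 - Real.exp (-s)) =
      -((a + b) / 2) * c + s * ((Real.exp s - Real.exp (-s)) / 2) := by
    rw [hb', hc]; ring
  rw [e]
  have h4 : (a + b) / 2 * c ≤ δ * c := by
    apply mul_le_mul_of_nonneg_right _ h3
    linarith
  have h5 : δ * c ≤ δ * (13 / 12 * s ^ 2) := by gcongr
  linarith

variable {d L : ℕ} [NeZero L]

theorem sum_shift (f : T d L → ℝ) (i : Fin d) :
    ∑ x : T d L, f (x + Pi.single i 1) = ∑ x : T d L, f x :=
  Fintype.sum_equiv (Equiv.addRight (Pi.single i 1 : T d L)) _ _ fun _ => rfl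

/-- lower bound for the energy -/
theorem ebound (lam δ κ E Y S : ℝ) (hlam : 0 < lam) (hδ : δ ≤ 1 / 8) (hκ : 0 < κ)
    (V w ψ : T d L → ℝ) (hw : ∀ x, |w x| ≤ δ)
    (heq : ∀ x, ∑ i : Fin d, ((1 - Real.exp (w (x + Pi.single i 1) - w x)) +
          (1 - Real.exp (w (x - Pi.single i 1) - w x))) + lam * V x - E + κ * w x = 0)
    (hψ : ∀ x, LapW (fun _ => 1) ψ x + κ * ψ x = V x)
    (hY : ∑ x, V x * ψ x ≤ Y) (hS : |∑ x, V x| ≤ S) :
    -E * (Fintype.card (T d L) : ℝ) ≤
      4 * (lam ^ 2 * Y + κ * (Fintype.card (T d L) : ℝ) + lam * S) := by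
  have hδ0 : 0 ≤ δ := (abs_nonneg _).trans (hw 0)
  set P : ℝ := (Fintype.card (T d L) : ℝ) with hP
  have hPpos : 0 < P := by
    rw [hP]
    exact_mod_cast Fintype.card_pos
  set s : T d L → Fin d → ℝ := fun x i => w (x + Pi.single i 1) - w x with hs
  set A : ℝ := ∑ x, ∑ i, s x i ^ 2 with hA
  set Q : ℝ := ∑ x, ∑ i, (Real.exp (s x i) + Real.exp (-(s x i)) - 2) with hQ
  have hA0 : 0 ≤ A := Finset.sum_nonneg fun _ _ => Finset.sum_nonneg fun _ _ => sq_nonneg _
  have hs4 : ∀ x i, |s x i| ≤ 1 / 4 := by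
    intro x i
    have h1 := abs_le.1 (hw x)
    have h2 := abs_le.1 (hw (x + Pi.single i 1))
    rw [hs, abs_le]
    constructor <;> dsimp only <;> linarith
  have hQA : Q ≤ 13 / 12 * A := by
    rw [hQ, hA, Finset.mul_sum]
    refine Finset.sum_le_sum fun x _ => ?_
    rw [Finset.mul_sum]
    exact Finset.sum_le_sum fun i _ => exp_quad _ (hs4 x i)
  -- the sum of the equation
  have i1 : -Q + lam * ∑ x, V x - E * P + κ * ∑ x, w x = 0 := by
    have h1 : ∑ x, (∑ i : Fin d, ((1 - Real.exp (w (x + Pi.single i 1) - w x)) +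
          (1 - Real.exp (w (x - Pi.single i 1) - w x))) + lam * V x - E + κ * w x) = 0 :=
      Finset.sum_eq_zero fun x _ => heq x
    rw [Finset.sum_add_distrib, Finset.sum_sub_distrib, Finset.sum_add_distrib,
      ← Finset.mul_sum, ← Finset.mul_sum, Finset.sum_const, Finset.card_univ, nsmul_eq_mul] at h1
    have h2 : ∑ x, ∑ i : Fin d, ((1 - Real.exp (w (x + Pi.single i 1) - w x)) +
          (1 - Real.exp (w (x - Pi.single i 1) - w x))) = -Q := by
      rw [hQ, Finset.sum_comm, Finset.sum_comm (f := fun x i =>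
        Real.exp (s x i) + Real.exp (-(s x i)) - 2), ← Finset.sum_neg_distrib]
      refine Finset.sum_congr rfl fun i _ => ?_
      rw [Finset.sum_add_distrib]
      have h3 : ∑ x, (1 - Real.exp (w (x - Pi.single i 1) - w x)) =
          ∑ x, (1 - Real.exp (-(s x i))) := by
        refine (sum_shift (fun x => 1 - Real.exp (w (x - Pi.single i 1) - w x)) i).symm.trans ?_
        refine Finset.sum_congr rfl fun x _ => ?_
        rw [add_sub_cancel_right, hs]
        dsimp only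
        rw [neg_sub]
      rw [h3, ← Finset.sum_add_distrib, ← Finset.sum_neg_distrib]
      refine Finset.sum_congr rfl fun x _ => ?_
      rw [hs]
      dsimp only
      ring
    rw [h2] at h1
    linarith
  -- the sum of the equation times `w`
  have i2 : (1 - 13 / 12 * δ) * A + lam * ∑ x, V x * w x - E * ∑ x, w x + κ * ∑ x, w x ^ 2 ≤ 0 := by
    have h1 : ∑ x, w x * (∑ i : Fin d, ((1 - Real.exp (w (x + Pi.single i 1) - w x)) +
          (1 - Real.exp (w (x - Pi.single i 1) - w x))) + lam * V x - E + κ * w x) = 0 :=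
      Finset.sum_eq_zero fun x _ => by rw [heq x, mul_zero]
    have h2 : ∑ x, w x * (∑ i : Fin d, ((1 - Real.exp (w (x + Pi.single i 1) - w x)) +
          (1 - Real.exp (w (x - Pi.single i 1) - w x))) + lam * V x - E + κ * w x) =
        ∑ x, w x * (∑ i : Fin d, ((1 - Real.exp (w (x + Pi.single i 1) - w x)) +
          (1 - Real.exp (w (x - Pi.single i 1) - w x)))) +
        (lam * ∑ x, V x * w x - E * ∑ x, w x + κ * ∑ x, w x ^ 2) := by
      rw [Finset.mul_sum, Finset.mul_sum, Finset.mul_sum, ← Finset.sum_sub_distrib,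
        ← Finset.sum_add_distrib, ← Finset.sum_add_distrib]
      refine Finset.sum_congr rfl fun x _ => ?_
      ring
    have h3 : (1 - 13 / 12 * δ) * A ≤
        ∑ x, w x * (∑ i : Fin d, ((1 - Real.exp (w (x + Pi.single i 1) - w x)) +
          (1 - Real.exp (w (x - Pi.single i 1) - w x)))) := by
      simp only [Finset.mul_sum]
      rw [hA, Finset.mul_sum, Finset.sum_comm (γ := T d L)]
      simp only [Finset.mul_sum]
      rw [Finset.sum_comm (γ := T d L)]
      refine Finset.sum_le_sum fun i _ => ?_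
      simp only [mul_add]
      rw [Finset.sum_add_distrib]
      have h4 : ∑ x, w x * (1 - Real.exp (w (x - Pi.single i 1) - w x)) =
          ∑ x, w (x + Pi.single i 1) * (1 - Real.exp (w x - w (x + Pi.single i 1))) := by
        refine (sum_shift (fun x => w x * (1 - Real.exp (w (x - Pi.single i 1) - w x))) i).symm.trans ?_
        refine Finset.sum_congr rfl fun x _ => ?_
        rw [add_sub_cancel_right]
      rw [h4, ← Finset.sum_add_distrib]
      exact Finset.sum_le_sum fun x _ => edge _ _ δ hδ (hw _) (hw _)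
    linarith
  -- elementary bounds
  obtain ⟨W, hW⟩ : ∃ W, W = ∑ x, w x := ⟨_, rfl⟩
  obtain ⟨W2, hW2⟩ : ∃ W2, W2 = ∑ x, w x ^ 2 := ⟨_, rfl⟩
  obtain ⟨SV, hSV⟩ : ∃ SV, SV = ∑ x, V x := ⟨_, rfl⟩
  rw [← hSV] at hS
  rw [← hW, ← hSV] at i1
  rw [← hW, ← hW2] at i2
  have hW2le : W2 ≤ δ ^ 2 * P := by
    rw [hW2]
    calc ∑ x, w x ^ 2 ≤ ∑ _x : T d L, δ ^ 2 := by
          refine Finset.sum_le_sum fun x _ => ?_
          rw [← sq_abs]
          exact pow_le_pow_left₀ (abs_nonneg _) (hw x) 2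
      _ = δ ^ 2 * P := by
          rw [Finset.sum_const, Finset.card_univ, nsmul_eq_mul, hP]; ring
  have hWabs : |W| ≤ δ * P := by
    rw [hW]
    refine (Finset.abs_sum_le_sum_abs _ _).trans ?_
    calc ∑ x, |w x| ≤ ∑ _x : T d L, δ := Finset.sum_le_sum fun x _ => hw x
      _ = δ * P := by
          rw [Finset.sum_const, Finset.card_univ, nsmul_eq_mul, hP]; ring
  have hWsq : W ^ 2 ≤ P * W2 := by
    rw [hW, hW2, hP]
    have := sq_sum_le_card_mul_sum_sq (s := (Finset.univ : Finset (T d L))) (f := w)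
    rwa [Finset.card_univ] at this
  -- the potential term
  have hψE : ∑ x, ∑ i : Fin d, (ψ x - ψ (x + Pi.single i 1)) ^ 2 + ∑ x, κ * ψ x ^ 2 ≤ Y := by
    have h1 := AE.Lin.energy (fun _ => (1 : ℝ)) (fun _ => κ) ψ
    have h2 : ∑ x, ψ x * (LapW (fun _ => 1) ψ x + κ * ψ x) = ∑ x, V x * ψ x :=
      Finset.sum_congr rfl fun x _ => by rw [hψ x]; ring
    simp only [one_mul, mul_one] at h1
    rw [h2] at h1
    linarith
  have hVw : -(lam * ∑ x, V x * w x) ≤ 1 / 4 * A + lam ^ 2 * Y + κ / 4 * W2 := by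
    have h1 : ∑ x, V x * w x = ∑ x, ∑ i : Fin d, ((w x - w (x + Pi.single i 1)) *
        (ψ x - ψ (x + Pi.single i 1))) + ∑ x, κ * (w x * ψ x) := by
      have h2 := AE.Lin.bilin (fun _ => (1 : ℝ)) w ψ
      simp only [one_mul] at h2
      rw [← h2, ← Finset.sum_add_distrib]
      refine Finset.sum_congr rfl fun x _ => ?_
      rw [← hψ x]; ring
    rw [h1]
    have h3 : -(lam * ∑ x, ∑ i : Fin d, ((w x - w (x + Pi.single i 1)) *
        (ψ x - ψ (x + Pi.single i 1)))) ≤ 1 / 4 * A +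
        lam ^ 2 * ∑ x, ∑ i : Fin d, (ψ x - ψ (x + Pi.single i 1)) ^ 2 := by
      rw [← neg_mul, hA, Finset.mul_sum, Finset.mul_sum, Finset.mul_sum, ← Finset.sum_add_distrib]
      refine Finset.sum_le_sum fun x _ => ?_
      rw [Finset.mul_sum, Finset.mul_sum, Finset.mul_sum, ← Finset.sum_add_distrib]
      refine Finset.sum_le_sum fun i _ => ?_
      rw [hs]
      dsimp only
      nlinarith [sq_nonneg (1 / 2 * (w x - w (x + Pi.single i 1)) +
        lam * (ψ x - ψ (x + Pi.single i 1)))]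
    have h4 : -(lam * ∑ x, κ * (w x * ψ x)) ≤ κ / 4 * W2 + lam ^ 2 * ∑ x, κ * ψ x ^ 2 := by
      rw [← neg_mul, hW2, Finset.mul_sum, Finset.mul_sum, Finset.mul_sum, ← Finset.sum_add_distrib]
      refine Finset.sum_le_sum fun x _ => ?_
      nlinarith [mul_nonneg hκ.le (sq_nonneg (1 / 2 * w x + lam * ψ x))]
    have h5 : lam ^ 2 * (∑ x, ∑ i : Fin d, (ψ x - ψ (x + Pi.single i 1)) ^ 2 +
        ∑ x, κ * ψ x ^ 2) ≤ lam ^ 2 * Y := by gcongr
    have e : -(lam * (∑ x, ∑ i : Fin d, ((w x - w (x + Pi.single i 1)) *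
        (ψ x - ψ (x + Pi.single i 1))) + ∑ x, κ * (w x * ψ x))) =
        -(lam * ∑ x, ∑ i : Fin d, ((w x - w (x + Pi.single i 1)) *
        (ψ x - ψ (x + Pi.single i 1)))) + -(lam * ∑ x, κ * (w x * ψ x)) := by ring
    rw [e]
    linarith
  -- `E W`
  have hEW : E * W ≤ δ * Q + δ * (lam * S) + κ * W2 := by
    have hE : E = (-Q + lam * SV + κ * W) / P := by
      field_simp
      linarith
    have hS0 : 0 ≤ S := (abs_nonneg _).trans hS
    have hm : |W / P| ≤ δ := by
      rw [abs_div, abs_of_pos hPpos, div_le_iff₀ hPpos]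
      exact hWabs
    have hm' := abs_le.1 hm
    have e : E * W = -(W / P) * Q + (W / P) * (lam * SV) + κ * (W ^ 2 / P) := by
      rw [hE]; field_simp
    rw [e]
    have hQ0 : 0 ≤ Q := Finset.sum_nonneg fun _ _ => Finset.sum_nonneg fun _ _ => c_nonneg _
    have h1 : -(W / P) * Q ≤ δ * Q := by
      apply mul_le_mul_of_nonneg_right _ hQ0
      linarith
    have h2 : (W / P) * (lam * SV) ≤ δ * (lam * S) := by
      calc (W / P) * (lam * SV) ≤ |(W / P) * (lam * SV)| := le_abs_self _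
        _ = |W / P| * (lam * |SV|) := by rw [abs_mul, abs_mul, abs_of_pos hlam]
        _ ≤ δ * (lam * S) := by gcongr
    have h3 : κ * (W ^ 2 / P) ≤ κ * W2 := by
      apply mul_le_mul_of_nonneg_left _ hκ.le
      rw [div_le_iff₀ hPpos]
      linarith
    linarith
  have hY0 : 0 ≤ Y := by
    refine le_trans ?_ hψE
    have h1 : 0 ≤ ∑ x, ∑ i : Fin d, (ψ x - ψ (x + Pi.single i 1)) ^ 2 :=
      Finset.sum_nonneg fun _ _ => Finset.sum_nonneg fun _ _ => sq_nonneg _
    have h2 : 0 ≤ ∑ x, κ * ψ x ^ 2 := Finset.sum_nonneg fun _ _ => by positivity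
    linarith
  have hS0 : 0 ≤ S := (abs_nonneg _).trans hS
  -- the bound for `A`
  have hAle : A ≤ 5 / 2 * (lam ^ 2 * Y + κ / 256 * P + 1 / 8 * (lam * S)) := by
    have h1 : δ * Q ≤ δ * (13 / 12 * A) := by gcongr
    have h2 : δ * A ≤ 1 / 8 * A := by gcongr
    have h3 : κ / 4 * W2 ≤ κ / 256 * P := by
      calc κ / 4 * W2 ≤ κ / 4 * (δ ^ 2 * P) := by gcongr
        _ ≤ κ / 4 * ((1 / 8) ^ 2 * P) := by gcongr
        _ = κ / 256 * P := by ring
    have h4 : δ * (lam * S) ≤ 1 / 8 * (lam * S) := by gcongr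
    nlinarith
  have hSV := abs_le.1 hS
  have hW' := abs_le.1 hWabs
  have h1 : -E * P = Q - lam * SV - κ * W := by linarith
  rw [h1]
  have h2 : -(lam * SV) ≤ lam * S := by nlinarith
  have h3 : -(κ * W) ≤ κ * (1 / 8 * P) := by
    have : -W ≤ 1 / 8 * P := by
      have : δ * P ≤ 1 / 8 * P := by gcongr
      linarith
    nlinarith
  have hκP : 0 ≤ κ * P := by positivity
  have hlS : 0 ≤ lam * S := by positivity
  have hlY : 0 ≤ lam ^ 2 * Y := by positivity
  nlinarith

end Pool.Agent.Zk60.E2.Eb
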