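import Mathlib

/-! Second moments of a quadratic form in independent centred bounded variables. -/

set_option autoImplicit false

open scoped BigOperators
open MeasureTheory

namespace Pool.Agent.Zk60.E2.Pe

variable {ι : Type} [Fintype ι] [DecidableEq ι]

theorem ae_bd (μ : Measure ℝ) [IsProbabilityMeasure μ] (hμ : μ (Set.Icc (-1) 1)ᶜ = 0) :
    ∀ᵐ V ∂(Measure.pi fun _ : ι => μ), ∀ x, |V x| ≤ 1 := by
  rw [ae_all_iff]
  intro x
  have h1 : ∀ᵐ t ∂μ, |t| ≤ 1 := by
    rw [ae_iff]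
    refine measure_mono_null (fun t ht => ?_) hμ
    simp only [Set.mem_ofPred_eq, not_le] at ht
    simp only [Set.mem_compl_iff, Set.mem_Icc, not_and_or, not_le]
    rcases lt_abs.1 ht with h | h
    · exact Or.inr h
    · exact Or.inl (by linarith)
  exact (measurePreserving_eval (fun _ : ι => μ) x).quasiMeasurePreserving.ae h1

theorem integrable_id (μ : Measure ℝ) [IsProbabilityMeasure μ] (hμ : μ (Set.Icc (-1) 1)ᶜ = 0) :
    Integrable (fun t : ℝ => t) μ := by
  refine Integrable.of_bound measurable_id.aestronglyMeasurable 1 ?_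
  have h1 : ∀ᵐ t ∂μ, t ∈ Set.Icc (-1 : ℝ) 1 := by
    rw [ae_iff]
    exact hμ
  filter_upwards [h1] with t ht
  rw [Real.norm_eq_abs, abs_le]
  exact ht

theorem int_prod (μ : Measure ℝ) [IsProbabilityMeasure μ]
    (hm : ∫ t, t ∂μ = 0) (x z : ι) (hxz : x ≠ z) :
    ∫ V, V x * V z ∂(Measure.pi fun _ : ι => μ) = 0 := by
  set F : ι → ℝ → ℝ := fun i t => if i = x then t else if i = z then t else 1 with hF
  have h1 : ∀ V : ι → ℝ, V x * V z = ∏ i, F i (V i) := by
    intro V
    rw [Finset.prod_eq_mul x z hxz]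
    · simp [hF, hxz.symm]
    · rintro c - ⟨h1, h2⟩
      simp [hF, h1, h2]
    · intro h; exact absurd (Finset.mem_univ _) h
    · intro h; exact absurd (Finset.mem_univ _) h
  have h2 : ∫ V, V x * V z ∂(Measure.pi fun _ : ι => μ) = ∏ i, ∫ t, F i t ∂μ := by
    rw [← integral_fintype_prod_eq_prod (μ := fun _ : ι => μ) F]
    exact integral_congr_ae (Filter.Eventually.of_forall h1)
  rw [h2]
  apply Finset.prod_eq_zero (Finset.mem_univ x)
  simp [hF, hm]

theorem int_sq (μ : Measure ℝ) [IsProbabilityMeasure μ] (hμ : μ (Set.Icc (-1) 1)ᶜ = 0) (x : ι) :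
    ∫ V, V x * V x ∂(Measure.pi fun _ : ι => μ) ≤ 1 := by
  have h1 : ∫ V, V x * V x ∂(Measure.pi fun _ : ι => μ) ≤
      ∫ _V, (1 : ℝ) ∂(Measure.pi fun _ : ι => μ) := by
    apply integral_mono_of_nonneg
    · exact Filter.Eventually.of_forall fun V => mul_self_nonneg _
    · exact integrable_const _
    · filter_upwards [ae_bd (ι := ι) μ hμ] with V hV
      have := hV x
      have h2 : |V x| * |V x| ≤ 1 * 1 := by gcongr
      rw [abs_mul_abs_self] at h2
      linarith
  simpa using h1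

theorem integrable_mul (μ : Measure ℝ) [IsProbabilityMeasure μ] (hμ : μ (Set.Icc (-1) 1)ᶜ = 0)
    (x z : ι) : Integrable (fun V : ι → ℝ => V x * V z) (Measure.pi fun _ : ι => μ) := by
  refine Integrable.of_bound
    ((measurable_pi_apply x).mul (measurable_pi_apply z)).aestronglyMeasurable 1 ?_
  filter_upwards [ae_bd (ι := ι) μ hμ] with V hV
  rw [Real.norm_eq_abs, abs_mul]
  have h2 : |V x| * |V z| ≤ 1 * 1 := by gcongr <;> exact hV _
  linarith

/-- the expectation of a quadratic form -/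
theorem quad (μ : Measure ℝ) [IsProbabilityMeasure μ] (hμ : μ (Set.Icc (-1) 1)ᶜ = 0)
    (hm : ∫ t, t ∂μ = 0) (a : ι → ι → ℝ) (ha : ∀ x, 0 ≤ a x x) :
    Integrable (fun V : ι → ℝ => ∑ x, ∑ z, a x z * (V x * V z)) (Measure.pi fun _ : ι => μ) ∧
    ∫ V, ∑ x, ∑ z, a x z * (V x * V z) ∂(Measure.pi fun _ : ι => μ) ≤ ∑ x, a x x := by
  have hi : ∀ x z, Integrable (fun V : ι → ℝ => a x z * (V x * V z)) (Measure.pi fun _ : ι => μ) :=
    fun x z => (integrable_mul μ hμ x z).const_mul _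
  refine ⟨integrable_finsetSum _ fun x _ => integrable_finsetSum _ fun z _ => hi x z, ?_⟩
  rw [integral_finsetSum _ fun x _ => integrable_finsetSum _ fun z _ => hi x z]
  refine Finset.sum_le_sum fun x _ => ?_
  rw [integral_finsetSum _ fun z _ => hi x z, Finset.sum_eq_single x]
  · rw [integral_const_mul]
    have := int_sq (ι := ι) μ hμ x
    nlinarith [ha x]
  · intro z _ hz
    rw [integral_const_mul, int_prod μ hm x z (Ne.symm hz), mul_zero]
  · intro h; exact absurd (Finset.mem_univ _) h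

/-- a point of a likely event at which two quadratic forms are not large -/
theorem pick (μ : Measure ℝ) [IsProbabilityMeasure μ] (hμ : μ (Set.Icc (-1) 1)ᶜ = 0)
    (hm : ∫ t, t ∂μ = 0) (a : ι → ι → ℝ) (ha : ∀ x, 0 ≤ a x x)
    (hpos : ∀ V : ι → ℝ, 0 ≤ ∑ x, ∑ z, a x z * (V x * V z)) (g : ℝ) (hg : 0 < g)
    (hag : ∀ x, a x x ≤ g) (G : Set (ι → ℝ)) (hG : MeasurableSet G) [Nonempty ι]
    (hP : 3 / 4 ≤ (Measure.pi fun _ : ι => μ).real G) :
    ∃ V ∈ G, ∑ x, ∑ z, a x z * (V x * V z) ≤ 4 * (Fintype.card ι * g) ∧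
      (∑ x, V x) ^ 2 ≤ 4 * Fintype.card ι := by
  set P := Measure.pi fun _ : ι => μ with hPdef
  have hc : (0 : ℝ) < Fintype.card ι := by exact_mod_cast Fintype.card_pos
  obtain ⟨i1, e1⟩ := quad (ι := ι) μ hμ hm a ha
  obtain ⟨i2, e2⟩ := quad (ι := ι) μ hμ hm (fun _ _ => 1) (fun _ => zero_le_one)
  rw [← hPdef] at i1 e1 i2 e2
  set X1 : (ι → ℝ) → ℝ := fun V => ∑ x, ∑ z, a x z * (V x * V z) with hX1
  set X2 : (ι → ℝ) → ℝ := fun V => ∑ x : ι, ∑ z : ι, 1 * (V x * V z) with hX2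
  have hX2e : ∀ V, X2 V = (∑ x, V x) ^ 2 := by
    intro V
    rw [hX2, sq, Finset.sum_mul_sum]
    simp
  have e1' : ∫ V, X1 V ∂P ≤ Fintype.card ι * g := by
    refine e1.trans ((Finset.sum_le_sum fun x _ => hag x).trans (le_of_eq ?_))
    rw [Finset.sum_const, Finset.card_univ, nsmul_eq_mul]
  have e2' : ∫ V, X2 V ∂P ≤ Fintype.card ι := by
    refine e2.trans (le_of_eq ?_)
    simp
  by_contra hcon
  push Not at hcon
  set X : (ι → ℝ) → ℝ := fun V => (4 * (Fintype.card ι * g))⁻¹ * X1 V +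
    (4 * (Fintype.card ι : ℝ))⁻¹ * X2 V with hX
  have hXi : Integrable X P := (i1.const_mul _).add (i2.const_mul _)
  have hX0 : ∀ V, 0 ≤ X V := by
    intro V
    have h1 := hpos V
    have h2 : 0 ≤ X2 V := by rw [hX2e]; positivity
    have h3 : 0 ≤ (4 * (Fintype.card ι * g))⁻¹ := by positivity
    have h4 : 0 ≤ (4 * (Fintype.card ι : ℝ))⁻¹ := by positivity
    exact add_nonneg (mul_nonneg h3 h1) (mul_nonneg h4 h2)
  have hXG : ∀ V ∈ G, 1 ≤ X V := by
    intro V hV
    have h1 := hpos V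
    have h2 : 0 ≤ X2 V := by rw [hX2e]; positivity
    have h3 : 0 ≤ (4 * (Fintype.card ι * g))⁻¹ * X1 V := by positivity
    have h4 : 0 ≤ (4 * (Fintype.card ι : ℝ))⁻¹ * X2 V := by positivity
    rcases le_or_gt (X1 V) (4 * (Fintype.card ι * g)) with h5 | h5
    · have h6 := hcon V hV h5
      rw [← hX2e] at h6
      have h7 : 1 ≤ (4 * (Fintype.card ι : ℝ))⁻¹ * X2 V := by
        rw [inv_mul_eq_div, one_le_div (by positivity)]
        exact h6.le
      simp only [hX]
      linarith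
    · have h7 : 1 ≤ (4 * (Fintype.card ι * g))⁻¹ * X1 V := by
        rw [inv_mul_eq_div, one_le_div (by positivity)]
        exact h5.le
      simp only [hX]
      linarith
  have h1 : P.real G ≤ ∫ V, X V ∂P := by
    calc P.real G = ∫ _V in G, (1 : ℝ) ∂P := by simp
      _ ≤ ∫ V in G, X V ∂P := by
          apply setIntegral_mono_on _ hXi.integrableOn hG fun V hV => hXG V hV
          exact integrableOn_const (measure_ne_top _ _)
      _ ≤ ∫ V, X V ∂P := setIntegral_le_integral hXi (Filter.Eventually.of_forall hX0)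
  have h2 : ∫ V, X V ∂P ≤ 1 / 2 := by
    rw [hX, integral_add (i1.const_mul _) (i2.const_mul _), integral_const_mul, integral_const_mul]
    have h3 : (4 * (Fintype.card ι * g))⁻¹ * ∫ V, X1 V ∂P ≤ 1 / 4 := by
      rw [inv_mul_eq_div, div_le_iff₀ (by positivity)]
      linarith
    have h4 : (4 * (Fintype.card ι : ℝ))⁻¹ * ∫ V, X2 V ∂P ≤ 1 / 4 := by
      rw [inv_mul_eq_div, div_le_iff₀ (by positivity)]
      linarith
    linarith
  linarith

end Pool.Agent.Zk60.E2.Pe
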