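import Pool.Agent.Zk60.E2.Green2
import Pool.Agent.Zk60.E2.Eb
import Pool.Agent.Zk60.E2.Pe

/-! The energy of the massive logarithmic equation on two dimensional tori is at least
`- K lam² log (1/κ) - ...`. -/

set_option autoImplicit false

open scoped BigOperators
open MeasureTheory

namespace Pool.Agent.Zk60.E2.Es

open Pool.Agent.H4R2
open Pool.Agent.H4R2.AE (T LapW)

theorem card_T2 (L : ℕ) [NeZero L] : (Fintype.card (T 2 L) : ℝ) = (L : ℝ) ^ 2 := by
  simp [T, ZMod.card]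

theorem lower (μ : Measure ℝ) [IsProbabilityMeasure μ] (hμ : μ (Set.Icc (-1) 1)ᶜ = 0)
    (hm : ∫ t, t ∂μ = 0) (lam κ : ℝ) (hlam : 0 < lam) (hκ : 0 < κ) (hκ1 : κ ≤ 1)
    (L : ℕ) [NeZero L] (hκL : 1 / (4 * (L : ℝ) ^ 2) ≤ κ) (E : ℝ) (G : Set (T 2 L → ℝ))
    (hG : MeasurableSet G) (hP : 3 / 4 ≤ (Measure.pi fun _ : T 2 L => μ).real G)
    (h : ∀ V ∈ G, ∃ w : T 2 L → ℝ, (∀ x, |w x| ≤ 1 / 8) ∧
        ∀ x, ∑ i : Fin 2, ((1 - Real.exp (w (x + Pi.single i 1) - w x)) +
          (1 - Real.exp (w (x - Pi.single i 1) - w x))) + lam * V x - E + κ * w x = 0) :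
    -E ≤ 4 * (4 * lam ^ 2 * (768 + 256 * Real.log (1 / κ)) + κ + 2 * lam / L) := by
  have hL : (0 : ℝ) < L := by
    have := NeZero.pos L
    exact_mod_cast this
  have hlog : 0 ≤ Real.log (1 / κ) := Real.log_nonneg (by rw [le_div_iff₀ hκ]; linarith)
  choose a' ha' using fun z : T 2 L => AE.Lin.solve (fun _ : T 2 L => (1 : ℝ)) (fun _ => κ)
    (fun x => if x = z then (1 : ℝ) else 0) (fun _ => one_pos) (fun _ => hκ)
  have hnn : ∀ z x, 0 ≤ a' z x := fun z =>
    AE.Lin.nonneg (fun _ : T 2 L => (1 : ℝ)) (fun _ => κ) (a' z) (fun _ => one_pos) (fun _ => hκ)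
      (fun x => by rw [ha' z x]; split_ifs <;> norm_num)
  set g : ℝ := 768 + 256 * Real.log (1 / κ) with hg
  have hg0 : 0 < g := by positivity
  set a : T 2 L → T 2 L → ℝ := fun x z => a' z x with ha
  have hsol : ∀ V : T 2 L → ℝ, ∀ x, LapW (fun _ => 1) (fun y => ∑ z, a y z * V z) x +
      κ * (∑ z, a x z * V z) = V x := by
    intro V x
    have h1 : LapW (fun _ => 1) (fun y => ∑ z, a y z * V z) x =
        ∑ z, V z * LapW (fun _ => 1) (a' z) x := by
      simp only [LapW, ha, one_mul]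
      simp only [Finset.mul_sum]
      rw [Finset.sum_comm]
      refine Finset.sum_congr rfl fun i _ => ?_
      rw [← Finset.sum_sub_distrib, ← Finset.sum_sub_distrib, ← Finset.sum_add_distrib]
      refine Finset.sum_congr rfl fun z _ => ?_
      ring
    rw [h1, Finset.mul_sum, ← Finset.sum_add_distrib]
    have h2 : ∀ z, V z * LapW (fun _ => 1) (a' z) x + κ * (a x z * V z) =
        if x = z then V z else 0 := by
      intro z
      have := ha' z x
      rw [ha]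
      dsimp only
      calc V z * LapW (fun _ => 1) (a' z) x + κ * (a' z x * V z) =
          V z * (LapW (fun _ => 1) (a' z) x + κ * a' z x) := by ring
        _ = _ := by rw [this]; split_ifs <;> simp
    rw [Finset.sum_congr rfl fun z _ => h2 z]
    simp
  have hquad : ∀ V : T 2 L → ℝ, ∑ x, ∑ z, a x z * (V x * V z) =
      ∑ x, V x * ∑ z, a x z * V z := by
    intro V
    refine Finset.sum_congr rfl fun x _ => ?_
    rw [Finset.mul_sum]
    refine Finset.sum_congr rfl fun z _ => ?_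
    ring
  have hpos : ∀ V : T 2 L → ℝ, 0 ≤ ∑ x, ∑ z, a x z * (V x * V z) := by
    intro V
    rw [hquad]
    have h1 := AE.Lin.energy (fun _ => (1 : ℝ)) (fun _ => κ) (fun y : T 2 L => ∑ z, a y z * V z)
    have h2 : ∑ x, (∑ z, a x z * V z) * (LapW (fun _ => 1) (fun y => ∑ z, a y z * V z) x +
        κ * ∑ z, a x z * V z) = ∑ x, V x * ∑ z, a x z * V z :=
      Finset.sum_congr rfl fun x _ => by rw [hsol V x]; ring
    rw [h2] at h1
    rw [h1]
    have h3 : 0 ≤ ∑ x : T 2 L, ∑ i : Fin 2, (1 : ℝ) * 1 * ((∑ z, a x z * V z) -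
        (∑ z, a (x + Pi.single i 1) z * V z)) ^ 2 :=
      Finset.sum_nonneg fun _ _ => Finset.sum_nonneg fun _ _ => by positivity
    have h4 : 0 ≤ ∑ x : T 2 L, κ * (∑ z, a x z * V z) ^ 2 :=
      Finset.sum_nonneg fun _ _ => by positivity
    exact add_nonneg h3 h4
  obtain ⟨V, hVG, hV1, hV2⟩ := Pe.pick (ι := T 2 L) μ hμ hm a (fun x => hnn x x) hpos g hg0
    (fun x => Green2.sup L κ κ hκ hκ1 hκL (by linarith) (fun _ => 1) (a' x) x
      (fun _ => by norm_num) (hnn x) (ha' x) x) G hG hP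
  obtain ⟨w, hw, heq⟩ := h V hVG
  rw [hquad] at hV1
  have hS : |∑ x, V x| ≤ 2 * L := by
    rw [card_T2] at hV2
    rw [← Real.sqrt_sq (by positivity : (0 : ℝ) ≤ 2 * L), ← Real.sqrt_sq_eq_abs]
    apply Real.sqrt_le_sqrt
    calc (∑ x, V x) ^ 2 ≤ 4 * (L : ℝ) ^ 2 := hV2
      _ = (2 * (L : ℝ)) ^ 2 := by ring
  have h1 := Eb.ebound lam (1 / 8) κ E _ _ hlam le_rfl hκ V w (fun y => ∑ z, a y z * V z) hw heq
    (hsol V) hV1 hS
  rw [card_T2] at h1
  have hL2 : (0 : ℝ) < (L : ℝ) ^ 2 := by positivity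
  refine le_of_mul_le_mul_right (h1.trans (le_of_eq ?_)) hL2
  field_simp

end Pool.Agent.Zk60.E2.Es
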