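import Pool.Agent.H4R2.AE.Weak
import Pool.Agent.H4R2.AE.Sob

/-! Massive Green functions with conductances bounded below on two dimensional tori:
exponential decay of the level sets, `ℓ²` bound and sup bound. -/

set_option autoImplicit false

open scoped BigOperators

namespace Pool.Agent.Zk60.E2.Green2

open Pool.Agent.H4R2
open Pool.Agent.H4R2.AE (T LapW)

theorem contr (f : ℝ → ℝ) (hm : Monotone f) (hl : ∀ a b, a ≤ b → f b - f a ≤ b - a) (a b : ℝ) :
    (f b - f a) ^ 2 ≤ (f a - f b) * (a - b) := by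
  rcases le_total a b with hab | hab
  · have h1 := hm hab
    have h2 := hl a b hab
    nlinarith
  · have h1 := hm hab
    have h2 := hl b a hab
    nlinarith

theorem slice (a b s τ : ℝ) (hτ : 0 ≤ τ) :
    (min (max (b - s) 0) τ - min (max (a - s) 0) τ) ^ 2 ≤
      (min (max (a - s) 0) τ - min (max (b - s) 0) τ) * (a - b) := by
  refine contr (fun y => min (max (y - s) 0) τ) ?_ ?_ a b
  · intro x y hxy
    exact min_le_min_right _ (max_le_max_right _ (by linarith))
  · intro x y hxy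
    rcases le_total (x - s) 0 with h1 | h1 <;> rcases le_total (y - s) 0 with h2 | h2 <;>
      rcases le_total (max (x - s) 0) τ with h3 | h3 <;>
      rcases le_total (max (y - s) 0) τ with h4 | h4 <;>
      simp only [max_eq_left, max_eq_right, h1, h2] at h3 h4 ⊢ <;>
      simp only [min_eq_left, min_eq_right, h3, h4] <;> linarith

theorem halve (L : ℕ) [NeZero L] (κ k : ℝ) (hκ : 0 < κ) (hκL : 1 / (4 * (L : ℝ) ^ 2) ≤ κ)
    (hk : κ / 2 ≤ k) (u h : T 2 L → ℝ) (x0 : T 2 L) (hu : ∀ x, 1 / 2 ≤ u x) (hh : ∀ x, 0 ≤ h x)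
    (he : ∀ x, LapW u h x + k * h x = if x = x0 then 1 else 0) (hsum : ∑ x, h x ≤ 2 / κ)
    (s : ℝ) (hs : 512 ≤ s) :
    ((Finset.univ.filter fun x => s + 256 ≤ h x).card : ℝ) * 4 ≤
      ((Finset.univ.filter fun x => s ≤ h x).card : ℝ) := by
  have hL : (0 : ℝ) < L := by
    have := NeZero.pos L
    exact_mod_cast this
  have hk0 : 0 < k := by linarith
  set S := Finset.univ.filter fun x => s ≤ h x with hS
  set M : ℝ := (S.card : ℝ) with hM
  set N : ℝ := ((Finset.univ.filter fun x => s + 256 ≤ h x).card : ℝ) with hN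
  have hM0 : 0 ≤ M := Nat.cast_nonneg _
  have hN0 : 0 ≤ N := Nat.cast_nonneg _
  have hNM : N ≤ M := by
    rw [hN, hM]
    norm_cast
    apply Finset.card_le_card
    intro x hx
    rw [Finset.mem_filter] at hx
    rw [hS, Finset.mem_filter]
    exact ⟨hx.1, by linarith [hx.2]⟩
  rcases hM0.lt_or_eq with hMpos | hMz
  swap
  · rw [← hMz] at hNM
    have : N = 0 := le_antisymm hNM hN0
    rw [this, ← hMz]; norm_num
  set v : T 2 L → ℝ := fun x => min (max (h x - s) 0) 256 with hv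
  have hv0 : ∀ x, 0 ≤ v x := fun x => le_min (le_max_right _ _) (by norm_num)
  have hvt : ∀ x, v x ≤ 256 := fun x => min_le_right _ _
  have hvS : ∀ x, x ∉ S → v x = 0 := by
    intro x hx
    have : h x < s := by
      by_contra hcon
      push Not at hcon
      exact hx (by rw [hS, Finset.mem_filter]; exact ⟨Finset.mem_univ _, hcon⟩)
    have h1 : max (h x - s) 0 = 0 := max_eq_right (by linarith)
    simp only [hv, h1]
    norm_num
  set E := ∑ i : Fin 2, ∑ x, (v (x + Pi.single i 1) - v x) ^ 2 with hE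
  have hE0 : 0 ≤ E := Finset.sum_nonneg fun _ _ => Finset.sum_nonneg fun _ _ => sq_nonneg _
  have h1 : ∑ x, v x * LapW u h x + ∑ x, v x * (k * h x) ≤ 256 := by
    rw [← Finset.sum_add_distrib]
    have e1 : ∑ x, (v x * LapW u h x + v x * (k * h x)) = v x0 := by
      have : ∀ x, v x * LapW u h x + v x * (k * h x) = v x * (if x = x0 then 1 else 0) := by
        intro x
        rw [← he x]; ring
      simp only [this]
      simp
    rw [e1]
    exact hvt x0
  have h2 : 1 / 4 * E ≤ ∑ x, v x * LapW u h x := by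
    rw [AE.Lin.bilin, hE, Finset.sum_comm, Finset.mul_sum]
    refine Finset.sum_le_sum fun x _ => ?_
    rw [Finset.mul_sum]
    refine Finset.sum_le_sum fun i _ => ?_
    have a1 : 1 / 4 ≤ u x * u (x + Pi.single i 1) := by
      have := hu x
      have := hu (x + Pi.single i 1)
      nlinarith
    have a2 : (v (x + Pi.single i 1) - v x) ^ 2 ≤
        (v x - v (x + Pi.single i 1)) * (h x - h (x + Pi.single i 1)) :=
      slice _ _ _ _ (by norm_num)
    calc 1 / 4 * (v (x + Pi.single i 1) - v x) ^ 2 ≤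
          (u x * u (x + Pi.single i 1)) * (v (x + Pi.single i 1) - v x) ^ 2 :=
          mul_le_mul_of_nonneg_right a1 (sq_nonneg _)
      _ ≤ _ := mul_le_mul_of_nonneg_left a2 (by linarith)
  have h3 : 0 ≤ ∑ x, v x * (k * h x) :=
    Finset.sum_nonneg fun x _ => mul_nonneg (hv0 x) (mul_nonneg hk0.le (hh x))
  have h4 : E ≤ 1024 := by linarith
  have hsq : 0 < Real.sqrt M := Real.sqrt_pos.2 hMpos
  have hsqM : Real.sqrt M * Real.sqrt M = M := Real.mul_self_sqrt hM0
  set a : ℝ := 16 / Real.sqrt M with ha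
  have ha0 : 0 < a := by positivity
  -- the gradient in `ℓ¹`
  have h5 : ∑ i : Fin 2, ∑ x, |v (x + Pi.single i 1) - v x| ≤ 64 * Real.sqrt M := by
    have b1 : ∀ (i : Fin 2) (x : T 2 L), |v (x + Pi.single i 1) - v x| ≤
        a / 2 * ((if x ∈ S then 1 else 0) + (if x + Pi.single i 1 ∈ S then 1 else 0)) +
          1 / (2 * a) * (v (x + Pi.single i 1) - v x) ^ 2 := by
      intro i x
      have c1 : 0 ≤ 1 / (2 * a) * (v (x + Pi.single i 1) - v x) ^ 2 := by positivity
      have c3 : |v (x + Pi.single i 1) - v x| ≤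
          a / 2 + 1 / (2 * a) * (v (x + Pi.single i 1) - v x) ^ 2 := by
        rw [← sq_abs (v (x + Pi.single i 1) - v x)]
        set q := |v (x + Pi.single i 1) - v x|
        have : a / 2 + 1 / (2 * a) * q ^ 2 - q = (a - q) ^ 2 / (2 * a) := by
          field_simp
          ring
        have : 0 ≤ (a - q) ^ 2 / (2 * a) := by positivity
        linarith
      by_cases hx : x ∈ S
      · rw [if_pos hx]
        have c2 : (0 : ℝ) ≤ (if x + Pi.single i 1 ∈ S then 1 else 0) := by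
          split_ifs <;> norm_num
        have : a / 2 * 1 ≤ a / 2 * (1 + (if x + Pi.single i 1 ∈ S then 1 else 0)) := by
          gcongr
          linarith
        linarith
      · rw [if_neg hx]
        by_cases hy : x + Pi.single i 1 ∈ S
        · rw [if_pos hy]
          linarith
        · rw [if_neg hy, hvS _ hx, hvS _ hy]
          simp
    have b2 : ∀ i : Fin 2, ∑ x : T 2 L, ((if x ∈ S then (1 : ℝ) else 0) +
        (if x + Pi.single i 1 ∈ S then 1 else 0)) = 2 * M := by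
      intro i
      rw [Finset.sum_add_distrib]
      have c1 : ∑ x : T 2 L, (if x ∈ S then (1 : ℝ) else 0) = M := by
        rw [Finset.sum_boole, hM]
        congr 2
        ext x; simp
      have c2 : ∑ x : T 2 L, (if x + Pi.single i 1 ∈ S then (1 : ℝ) else 0) = M := by
        rw [← c1]
        exact Fintype.sum_equiv (Equiv.addRight (Pi.single i 1)) _ _ fun _ => rfl
      rw [c1, c2]; ring
    calc ∑ i : Fin 2, ∑ x, |v (x + Pi.single i 1) - v x|
        ≤ ∑ i : Fin 2, ∑ x, (a / 2 * ((if x ∈ S then 1 else 0) +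
            (if x + Pi.single i 1 ∈ S then 1 else 0)) +
          1 / (2 * a) * (v (x + Pi.single i 1) - v x) ^ 2) :=
          Finset.sum_le_sum fun i _ => Finset.sum_le_sum fun x _ => b1 i x
      _ = ∑ i : Fin 2, (a / 2 * (2 * M)) + 1 / (2 * a) * E := by
          have per : ∀ i : Fin 2, ∑ x, (a / 2 * ((if x ∈ S then 1 else 0) +
              (if x + Pi.single i 1 ∈ S then 1 else 0)) +
              1 / (2 * a) * (v (x + Pi.single i 1) - v x) ^ 2) =
              a / 2 * (2 * M) + 1 / (2 * a) * ∑ x, (v (x + Pi.single i 1) - v x) ^ 2 := by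
            intro i
            rw [Finset.sum_add_distrib, ← Finset.mul_sum, ← Finset.mul_sum, b2 i]
          rw [Finset.sum_congr rfl fun i _ => per i, Finset.sum_add_distrib, hE, Finset.mul_sum]
      _ ≤ 2 * a * M + 1 / (2 * a) * 1024 := by
          have : ∑ i : Fin 2, (a / 2 * (2 * M)) = 2 * a * M := by
            simp; ring
          rw [this]
          gcongr
      _ = 64 * Real.sqrt M := by
          have hsq2 : Real.sqrt M ^ 2 = M := Real.sq_sqrt hM0
          rw [ha]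
          field_simp
          rw [hsq2]
          ring
  have h6 := AE.Sob.sobolev 2 L le_rfl v hv0
  have e1 : ((2 : ℕ) : ℝ) / (((2 : ℕ) : ℝ) - 1) = ((2 : ℕ) : ℝ) := by norm_num
  have e2 : (((2 : ℕ) : ℝ) - 1) / ((2 : ℕ) : ℝ) = 1 / 2 := by norm_num
  rw [e1, e2, ← Real.sqrt_eq_rpow] at h6
  simp only [Real.rpow_natCast] at h6
  have h7 : 256 ^ 2 * N ≤ ∑ x, v x ^ 2 := by
    have c1 : ∑ x ∈ Finset.univ.filter (fun x => s + 256 ≤ h x), v x ^ 2 ≤ ∑ x, v x ^ 2 :=
      Finset.sum_le_sum_of_subset_of_nonneg (Finset.filter_subset _ _) fun x _ _ => sq_nonneg _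
    refine le_trans (le_of_eq ?_) c1
    have c2 : ∀ x ∈ Finset.univ.filter (fun x => s + 256 ≤ h x), v x ^ 2 = 256 ^ 2 := by
      intro x hx
      rw [Finset.mem_filter] at hx
      have c3 : max (h x - s) 0 = h x - s := max_eq_left (by linarith [hx.2])
      have : v x = 256 := by
        simp only [hv, c3]
        exact min_eq_right (by linarith [hx.2])
      rw [this]
    rw [Finset.sum_congr rfl c2, Finset.sum_const, nsmul_eq_mul, hN]
    ring
  have h8 : ∑ x, v x ≤ 256 * M := by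
    have c1 : ∀ x, v x ≤ if x ∈ S then 256 else 0 := by
      intro x
      by_cases hx : x ∈ S
      · rw [if_pos hx]; exact hvt x
      · rw [if_neg hx, hvS x hx]
    refine (Finset.sum_le_sum fun x _ => c1 x).trans (le_of_eq ?_)
    rw [Finset.sum_ite_mem, Finset.univ_inter, Finset.sum_const, nsmul_eq_mul]
    ring
  have h9 : 256 * Real.sqrt N ≤ 64 * Real.sqrt M + 2 / (L : ℝ) * (256 * M) := by
    calc 256 * Real.sqrt N = Real.sqrt (256 ^ 2 * N) := by
          rw [Real.sqrt_mul (by norm_num), Real.sqrt_sq (by norm_num)]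
      _ ≤ Real.sqrt (∑ x, v x ^ 2) := Real.sqrt_le_sqrt h7
      _ ≤ _ := h6
      _ ≤ _ := by
          push_cast
          gcongr
  -- the number of large points
  have h10 : M ≤ (L : ℝ) ^ 2 / 64 := by
    have c1 : M * s ≤ ∑ x, h x := by
      have c2 : ∑ x ∈ S, h x ≤ ∑ x, h x :=
        Finset.sum_le_sum_of_subset_of_nonneg (Finset.subset_univ _) fun x _ _ => hh x
      refine le_trans ?_ c2
      rw [hM, ← nsmul_eq_mul]
      refine Finset.card_nsmul_le_sum _ _ _ fun x hx => ?_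
      rw [hS, Finset.mem_filter] at hx
      exact hx.2
    have c3 : 2 / κ ≤ 8 * (L : ℝ) ^ 2 := by
      rw [div_le_iff₀ hκ]
      have : 1 / (4 * (L : ℝ) ^ 2) * (8 * (L : ℝ) ^ 2) = 2 := by field_simp; norm_num
      nlinarith
    have c4 : M * 512 ≤ 8 * (L : ℝ) ^ 2 := by
      calc M * 512 ≤ M * s := by gcongr
        _ ≤ _ := c1.trans (hsum.trans c3)
    linarith
  have h11 : Real.sqrt M ≤ L / 8 := by
    rw [Real.sqrt_le_left (by positivity)]
    calc M ≤ (L : ℝ) ^ 2 / 64 := h10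
      _ = _ := by ring
  have h12 : 2 / (L : ℝ) * (256 * M) ≤ 64 * Real.sqrt M := by
    have : M = Real.sqrt M * Real.sqrt M := hsqM.symm
    calc 2 / (L : ℝ) * (256 * M) = 512 / (L : ℝ) * (Real.sqrt M * Real.sqrt M) := by
          rw [← this]; ring
      _ ≤ 512 / (L : ℝ) * (Real.sqrt M * (L / 8)) := by gcongr
      _ = 64 * Real.sqrt M := by
          field_simp
          ring
  have h13 : Real.sqrt N ≤ Real.sqrt M / 2 := by linarith
  have h14 : Real.sqrt N * Real.sqrt N = N := Real.mul_self_sqrt hN0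
  have h15 := Real.sqrt_nonneg N
  nlinarith

theorem sumh (L : ℕ) [NeZero L] (κ k : ℝ) (hκ : 0 < κ)
    (hk : κ / 2 ≤ k) (u h : T 2 L → ℝ) (x0 : T 2 L) (hh : ∀ x, 0 ≤ h x)
    (he : ∀ x, LapW u h x + k * h x = if x = x0 then 1 else 0) : ∑ x, h x ≤ 2 / κ := by
  have h3 : ∑ x, (LapW u h x + k * h x) = 1 := by
    rw [Finset.sum_congr rfl fun x _ => he x]
    simp
  rw [Finset.sum_add_distrib, AE.Lin.sum_lapW, zero_add, ← Finset.mul_sum] at h3
  rw [le_div_iff₀ hκ]
  have h4 : 0 ≤ ∑ x, h x := Finset.sum_nonneg fun x _ => hh x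
  have h5 : κ / 2 * ∑ x, h x ≤ k * ∑ x, h x := by gcongr
  linarith

/-- decay of the level sets -/
theorem level (L : ℕ) [NeZero L] (κ k : ℝ) (hκ : 0 < κ) (hκL : 1 / (4 * (L : ℝ) ^ 2) ≤ κ)
    (hk : κ / 2 ≤ k) (u h : T 2 L → ℝ) (x0 : T 2 L) (hu : ∀ x, 1 / 2 ≤ u x) (hh : ∀ x, 0 ≤ h x)
    (he : ∀ x, LapW u h x + k * h x = if x = x0 then 1 else 0) (j : ℕ) :
    ((Finset.univ.filter fun x => 512 + 256 * (j : ℝ) ≤ h x).card : ℝ) * 4 ^ j ≤
      1 / (256 * κ) := by
  have hsum := sumh L κ k hκ hk u h x0 hh he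
  induction j with
  | zero =>
    simp only [Nat.cast_zero, mul_zero, add_zero, pow_zero, mul_one]
    set S := Finset.univ.filter fun x => (512 : ℝ) ≤ h x with hS
    have c1 : (S.card : ℝ) * 512 ≤ ∑ x, h x := by
      have c2 : ∑ x ∈ S, h x ≤ ∑ x, h x :=
        Finset.sum_le_sum_of_subset_of_nonneg (Finset.subset_univ _) fun x _ _ => hh x
      refine le_trans ?_ c2
      rw [← nsmul_eq_mul]
      refine Finset.card_nsmul_le_sum _ _ _ fun x hx => ?_
      rw [hS, Finset.mem_filter] at hx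
      exact hx.2
    have c2 := c1.trans hsum
    have e : 1 / (256 * κ) = (2 / κ) / 512 := by
      field_simp
      norm_num
    rw [e, le_div_iff₀ (by norm_num)]
    exact c2
  | succ j ih =>
    have h1 := halve L κ k hκ hκL hk u h x0 hu hh he hsum (512 + 256 * (j : ℝ)) (by
      have : (0 : ℝ) ≤ j := Nat.cast_nonneg j
      linarith)
    have e : 512 + 256 * ((j + 1 : ℕ) : ℝ) = 512 + 256 * (j : ℝ) + 256 := by
      push_cast; ring
    rw [e, pow_succ]
    calc _ = ((Finset.univ.filter fun x => 512 + 256 * (j : ℝ) + 256 ≤ h x).card : ℝ) * 4 *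
          4 ^ j := by ring
      _ ≤ ((Finset.univ.filter fun x => 512 + 256 * (j : ℝ) ≤ h x).card : ℝ) * 4 ^ j := by
          gcongr
      _ ≤ _ := ih

theorem sq_le (n : ℕ) : ((n : ℝ) + 3) ^ 2 ≤ 9 * (2 ^ (n + 1) - 1) := by
  have key : ∀ n : ℕ, 2 * (n : ℝ) + 7 ≤ 9 * 2 ^ (n + 1) := by
    intro n
    induction n with
    | zero => norm_num
    | succ n ih =>
      push_cast
      have e : (2 : ℝ) ^ (n + 1 + 1) = 2 * 2 ^ (n + 1) := by ring
      rw [e]
      have : (1 : ℝ) ≤ 2 ^ (n + 1) := one_le_pow₀ (by norm_num)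
      linarith
  induction n with
  | zero => norm_num
  | succ n ih =>
    have h1 := key n
    push_cast
    have e : (2 : ℝ) ^ (n + 1 + 1) = 2 * 2 ^ (n + 1) := by ring
    rw [e]
    nlinarith

/-- pointwise bound by the level sets -/
theorem ptw (y : ℝ) (hy : 0 ≤ y) (J : ℕ) (hJ : y < 512 + 256 * (J : ℝ)) :
    y ^ 2 ≤ 512 * y + 256 ^ 2 * 9 * ∑ j ∈ Finset.range J,
      (2 : ℝ) ^ j * (if 512 + 256 * (j : ℝ) ≤ y then 1 else 0) := by
  have hnn : 0 ≤ ∑ j ∈ Finset.range J,
      (2 : ℝ) ^ j * (if 512 + 256 * (j : ℝ) ≤ y then 1 else 0) :=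
    Finset.sum_nonneg fun j _ => mul_nonneg (by positivity) (by split_ifs <;> norm_num)
  rcases lt_or_ge y 512 with h | h
  · nlinarith
  · set n : ℕ := ⌊(y - 512) / 256⌋₊ with hn
    have h0 : 0 ≤ (y - 512) / 256 := by
      apply div_nonneg _ (by norm_num)
      linarith
    have h1 : (n : ℝ) ≤ (y - 512) / 256 := Nat.floor_le h0
    have h2 : (y - 512) / 256 < n + 1 := Nat.lt_floor_add_one _
    rw [le_div_iff₀ (by norm_num)] at h1
    rw [div_lt_iff₀ (by norm_num)] at h2
    have hnJ : n + 1 ≤ J := by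
      by_contra hcon
      push Not at hcon
      have : (J : ℝ) ≤ n := by exact_mod_cast (by omega : J ≤ n)
      linarith
    have h3 : ∑ j ∈ Finset.range (n + 1), (2 : ℝ) ^ j ≤ ∑ j ∈ Finset.range J,
        (2 : ℝ) ^ j * (if 512 + 256 * (j : ℝ) ≤ y then 1 else 0) := by
      have c1 : ∑ j ∈ Finset.range (n + 1), (2 : ℝ) ^ j = ∑ j ∈ Finset.range (n + 1),
          (2 : ℝ) ^ j * (if 512 + 256 * (j : ℝ) ≤ y then 1 else 0) := by
        refine Finset.sum_congr rfl fun j hj => ?_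
        rw [Finset.mem_range] at hj
        have : (j : ℝ) ≤ n := by exact_mod_cast (by omega : j ≤ n)
        rw [if_pos (by linarith), mul_one]
      rw [c1]
      refine Finset.sum_le_sum_of_subset_of_nonneg ?_ fun j _ _ => ?_
      · intro j hj
        rw [Finset.mem_range] at hj ⊢
        omega
      · exact mul_nonneg (by positivity) (by split_ifs <;> norm_num)
    have h4 : ∑ j ∈ Finset.range (n + 1), (2 : ℝ) ^ j = 2 ^ (n + 1) - 1 := by
      rw [geom_sum_eq (by norm_num)]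
      norm_num
    have h5 := sq_le n
    have h6 : y ^ 2 ≤ 256 ^ 2 * ((n : ℝ) + 3) ^ 2 := by
      rw [← mul_pow]
      apply pow_le_pow_left₀ hy
      linarith
    rw [h4] at h3
    calc y ^ 2 ≤ 256 ^ 2 * ((n : ℝ) + 3) ^ 2 := h6
      _ ≤ 256 ^ 2 * (9 * (2 ^ (n + 1) - 1)) := by gcongr
      _ = 256 ^ 2 * 9 * (2 ^ (n + 1) - 1) := by ring
      _ ≤ 256 ^ 2 * 9 * ∑ j ∈ Finset.range J,
        (2 : ℝ) ^ j * (if 512 + 256 * (j : ℝ) ≤ y then 1 else 0) := by gcongr
      _ ≤ _ := by linarith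

/-- the `ℓ²` bound -/
theorem l2 (L : ℕ) [NeZero L] (κ k : ℝ) (hκ : 0 < κ) (hκL : 1 / (4 * (L : ℝ) ^ 2) ≤ κ)
    (hk : κ / 2 ≤ k) (u h : T 2 L → ℝ) (x0 : T 2 L) (hu : ∀ x, 1 / 2 ≤ u x) (hh : ∀ x, 0 ≤ h x)
    (he : ∀ x, LapW u h x + k * h x = if x = x0 then 1 else 0) :
    ∑ x, h x ^ 2 ≤ 6000 / κ := by
  have hsum := sumh L κ k hκ hk u h x0 hh he
  obtain ⟨J, hJ⟩ : ∃ J : ℕ, ∀ x, h x < 512 + 256 * (J : ℝ) := by
    obtain ⟨J, hJ⟩ := exists_nat_gt (∑ x, h x)
    refine ⟨J, fun x => ?_⟩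
    have h1 : h x ≤ ∑ x, h x := Finset.single_le_sum (fun y _ => hh y) (Finset.mem_univ x)
    have : (0 : ℝ) ≤ J := Nat.cast_nonneg J
    linarith
  have h1 : ∑ x, h x ^ 2 ≤ 512 * ∑ x, h x + 256 ^ 2 * 9 * ∑ j ∈ Finset.range J,
      (2 : ℝ) ^ j * ((Finset.univ.filter fun x => 512 + 256 * (j : ℝ) ≤ h x).card : ℝ) := by
    calc ∑ x, h x ^ 2 ≤ ∑ x, (512 * h x + 256 ^ 2 * 9 * ∑ j ∈ Finset.range J,
          (2 : ℝ) ^ j * (if 512 + 256 * (j : ℝ) ≤ h x then 1 else 0)) :=
          Finset.sum_le_sum fun x _ => ptw (h x) (hh x) J (hJ x)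
      _ = _ := by
          rw [Finset.sum_add_distrib, ← Finset.mul_sum, ← Finset.mul_sum, Finset.sum_comm]
          congr 2
          refine Finset.sum_congr rfl fun j _ => ?_
          rw [← Finset.mul_sum, Finset.sum_boole]
  have h2 : ∑ j ∈ Finset.range J,
      (2 : ℝ) ^ j * ((Finset.univ.filter fun x => 512 + 256 * (j : ℝ) ≤ h x).card : ℝ) ≤
      2 * (1 / (256 * κ)) := by
    have c1 : ∀ j ∈ Finset.range J, (2 : ℝ) ^ j *
        ((Finset.univ.filter fun x => 512 + 256 * (j : ℝ) ≤ h x).card : ℝ) ≤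
        1 / (256 * κ) * (1 / 2) ^ j := by
      intro j _
      have c2 := level L κ k hκ hκL hk u h x0 hu hh he j
      have e : (4 : ℝ) ^ j = 2 ^ j * 2 ^ j := by rw [← mul_pow]; norm_num
      rw [e] at c2
      have h2j : (0 : ℝ) < 2 ^ j := by positivity
      rw [one_div_pow, mul_one_div, le_div_iff₀ h2j]
      linarith
    refine (Finset.sum_le_sum c1).trans ?_
    rw [← Finset.mul_sum]
    have c3 : ∑ j ∈ Finset.range J, ((1 : ℝ) / 2) ^ j ≤ 2 := by
      have := Summable.sum_le_tsum (Finset.range J) (fun j _ => by positivity)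
        summable_geometric_two
      rwa [tsum_geometric_two] at this
    have : 0 ≤ 1 / (256 * κ) := by positivity
    nlinarith
  calc ∑ x, h x ^ 2 ≤ 512 * (2 / κ) + 256 ^ 2 * 9 * (2 * (1 / (256 * κ))) := by
        refine h1.trans ?_
        gcongr
    _ = 5632 / κ := by
        field_simp
        norm_num
    _ ≤ 6000 / κ := by gcongr; norm_num

/-- the sup bound -/
theorem sup (L : ℕ) [NeZero L] (κ k : ℝ) (hκ : 0 < κ) (hκ1 : κ ≤ 1)
    (hκL : 1 / (4 * (L : ℝ) ^ 2) ≤ κ)
    (hk : κ / 2 ≤ k) (u h : T 2 L → ℝ) (x0 : T 2 L) (hu : ∀ x, 1 / 2 ≤ u x) (hh : ∀ x, 0 ≤ h x)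
    (he : ∀ x, LapW u h x + k * h x = if x = x0 then 1 else 0) (x : T 2 L) :
    h x ≤ 768 + 256 * Real.log (1 / κ) := by
  have hlog : 0 ≤ Real.log (1 / κ) := Real.log_nonneg (by rw [le_div_iff₀ hκ]; linarith)
  rcases lt_or_ge (h x) 512 with h0 | h0
  · linarith
  set n : ℕ := ⌊(h x - 512) / 256⌋₊ with hn
  have h0' : 0 ≤ (h x - 512) / 256 := by
    apply div_nonneg _ (by norm_num)
    linarith
  have h1 : (n : ℝ) ≤ (h x - 512) / 256 := Nat.floor_le h0'
  have h2 : (h x - 512) / 256 < n + 1 := Nat.lt_floor_add_one _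
  rw [le_div_iff₀ (by norm_num)] at h1
  rw [div_lt_iff₀ (by norm_num)] at h2
  have h3 := level L κ k hκ hκL hk u h x0 hu hh he n
  have h4 : (1 : ℝ) ≤ ((Finset.univ.filter fun x => 512 + 256 * (n : ℝ) ≤ h x).card : ℝ) := by
    have : 0 < (Finset.univ.filter fun x => 512 + 256 * (n : ℝ) ≤ h x).card :=
      Finset.card_pos.2 ⟨x, by rw [Finset.mem_filter]; exact ⟨Finset.mem_univ _, by linarith⟩⟩
    exact_mod_cast this
  have h5 : (4 : ℝ) ^ n ≤ 1 / κ := by
    calc (4 : ℝ) ^ n = 1 * 4 ^ n := by ring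
      _ ≤ _ := by gcongr
      _ ≤ 1 / (256 * κ) := h3
      _ ≤ 1 / κ := by
          apply one_div_le_one_div_of_le hκ
          linarith
  have h6 : (n : ℝ) ≤ Real.log (1 / κ) := by
    have c1 := Real.log_le_log (by positivity) h5
    rw [Real.log_pow] at c1
    have c2 : 1 ≤ Real.log 4 := by
      rw [Real.le_log_iff_exp_le (by norm_num)]
      have := Real.exp_one_lt_d9
      linarith
    have : (0 : ℝ) ≤ n := Nat.cast_nonneg n
    nlinarith
  linarith

end Pool.Agent.Zk60.E2.Green2
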