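import Pool.Agent.H4R2.AE.Core2
import Pool.Agent.Y663.Mg
import Pool.Agent.Zk60.E2.Green2

/-! The massive logarithmic equation on the two dimensional torus: good event. -/

set_option autoImplicit false

open scoped BigOperators
open MeasureTheory

namespace Pool.Agent.Zk60.E2.Good2

open Pool.Agent.H4R2
open Pool.Agent.H4R2.AE (T LapW Hop)

/-- the constant -/
noncomputable def A2 : ℝ := 144 * 6000

/-- the good event, `d = 2` -/
theorem good2 (μ : Measure ℝ) [IsProbabilityMeasure μ]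
    (hμ : μ (Set.Icc (-1) 1)ᶜ = 0) (lam δ κ : ℝ) (hlam : 0 < lam) (hδ : 0 < δ) (hδ' : δ ≤ 1 / 8)
    (hκ : 0 < κ) (L : ℕ) [NeZero L] (hκL : 1 / (4 * (L : ℝ) ^ 2) ≤ κ) :
    ∃ E : ℝ, |E| ≤ lam ∧ ∃ G : Set (T 2 L → ℝ), MeasurableSet G ∧
      1 - 2 * (L : ℝ) ^ 2 * Real.exp (-(δ ^ 2 * κ / (A2 * lam ^ 2))) ≤
        (Measure.pi fun _ : T 2 L => μ).real G ∧
      ∀ V ∈ G, (∀ x, |V x| ≤ 1) ∧ ∃ w : T 2 L → ℝ, (∀ x, |w x| ≤ δ) ∧
        ∀ x, ∑ i : Fin 2, ((1 - Real.exp (w (x + Pi.single i 1) - w x)) +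
          (1 - Real.exp (w (x - Pi.single i 1) - w x))) + lam * V x - E + κ * w x = 0 := by
  set R : ℝ := 6000 / κ with hR
  have hR0 : 0 < R := by positivity
  set θ : ℝ := δ / (72 * R * lam ^ 2) with hθ
  have hθ0 : 0 < θ := by positivity
  have hk : κ / 2 ≤ κ * Real.exp (-(4 * δ)) := by
    have hexp : Real.exp (4 * δ) ≤ 2 := Pool.Agent.Y663.Mg.exp_le_two δ hδ'
    have hexp' : 1 / 2 ≤ Real.exp (-(4 * δ)) := by
      rw [Real.exp_neg, ← one_div]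
      exact one_div_le_one_div_of_le (Real.exp_pos _) hexp
    calc κ / 2 = κ * (1 / 2) := by ring
      _ ≤ _ := by gcongr
  obtain ⟨E, hE, G, hGm, hP, hw⟩ := AE.Goodt.good 2 L κ hκ 2 R (by norm_num) hR0.le μ lam δ hlam hδ
    hδ' (by
      intro u Gr x0 hu hGr hh θ hθ
      calc ∑ z, min ((θ * Gr z) ^ 2) (θ * Gr z) ≤ ∑ z, (θ * Gr z) ^ 2 :=
            Finset.sum_le_sum fun z _ => min_le_left _ _
        _ = θ ^ 2 * ∑ z, Gr z ^ 2 := by
            rw [Finset.mul_sum]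
            exact Finset.sum_congr rfl fun z _ => by ring
        _ ≤ θ ^ 2 * R := mul_le_mul_of_nonneg_left
            (Green2.l2 L κ (κ * Real.exp (-(4 * δ))) hκ hκL hk u Gr x0 hu hGr hh)
            (sq_nonneg _)
        _ = R * θ ^ (2 : ℝ) := by rw [Real.rpow_two]; ring) θ hθ0
  obtain ⟨G', hG', hP', hV'⟩ := AE.Arith.pi_real_inter μ hμ G hGm _ hP
  refine ⟨E, hE, G', hG', ?_, fun V hV => ⟨(hV' V hV).2, hw V (hV' V hV).1 (hV' V hV).2⟩⟩
  refine le_trans (le_of_eq ?_) hP'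
  have he : -(θ * δ) + R * (6 * lam * θ) ^ (2 : ℝ) / (2 - 1) =
      -(δ ^ 2 * κ / (A2 * lam ^ 2)) := by
    rw [Real.rpow_two, hθ, hR, A2]
    field_simp
    ring
  rw [he]
  ring

end Pool.Agent.Zk60.E2.Good2
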