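import Pool.Agent.Y663.Mf
import Pool.Agent.Zk60.E2.Good2
import Pool.Agent.Zk60.E2.Es

/-! Localization outside a neighbourhood of size `lam² log (1/lam)` of the free band in dimension
two: assembly. -/

set_option autoImplicit false

open scoped BigOperators
open MeasureTheory

namespace Pool.Agent.Zk60.E2.Fin2

open Pool.Agent.H4R2
open Pool.Agent.H4R2.LO (Zd)
open Pool.Agent.Y663
open Pool.Agent.Y663.Mf (exp_log xstep)

theorem fin2 (B : ℝ) (hB : 0 < B) :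
    ∃ k K : ℝ, 0 < k ∧ k ≤ 1 / 4 ∧ 0 < K ∧
    ∀ (μ : Measure ℝ) [IsProbabilityMeasure μ], μ (Set.Icc (-1) 1)ᶜ = 0 → ∫ t, t ∂μ = 0 →
    LO.Reg B μ →
    ∀ lam : ℝ, 0 < lam → lam ≤ k →
      ∀ κ : ℝ, K * lam ^ 2 * Real.log (1 / lam) ≤ κ → κ ≤ 1 →
        ∀ᵐ ω ∂(Measure.infinitePi fun _ : Zd 2 => μ),
          LO.Main.Dec 2 (-1) (fun x => lam * ω x) (Set.Iic (-2 * (2 : ℕ) - κ))
            (k * Real.sqrt κ / Real.log (2 / (κ * lam))) := by
  obtain ⟨C, hC, Hb⟩ := LO.Main.below 2 (by norm_num) B hB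
  have hC0 : 0 < C := by linarith
  -- parameters
  set A : ℝ := Good2.A2 with hA
  have hA0 : 0 < A := by rw [hA]; unfold Good2.A2; norm_num
  set K1 : ℝ := 64 * A * (20 * C + 4) with hK1
  have hA1 : 1 ≤ A := by rw [hA]; unfold Good2.A2; norm_num
  have hK11 : 1 ≤ K1 := by nlinarith
  set k : ℝ := min (1 / 4) (1 / (4 * C)) with hk
  have hk0 : 0 < k := by positivity
  have hk4 : k ≤ 1 / 4 := min_le_left _ _
  have hkC : k ≤ 1 / (4 * C) := min_le_right _ _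
  refine ⟨k, 42000 + 10 * K1, hk0, hk4, by linarith, ?_⟩
  intro μ _ hμ hm hreg lam hlam hlamk κ hκ hκ1
  have hlam4 : lam ≤ 1 / 4 := hlamk.trans hk4
  have hlam1 : lam ≤ 1 := by linarith
  set l : ℝ := Real.log (1 / lam) with hl
  have hl1 : 1 ≤ l := by
    rw [hl, Real.le_log_iff_exp_le (by positivity)]
    have h1 := Real.exp_one_lt_d9
    rw [le_div_iff₀ hlam]
    nlinarith
  have hl0 : 0 < l := by linarith
  -- the massive torus
  set X : ℝ := lam ^ (-(5 * C)) with hX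
  have hX1 : 1 ≤ X := Real.one_le_rpow_of_pos_of_le_one_of_nonpos hlam hlam1 (by linarith)
  set L0 : ℕ := ⌈X⌉₊ with hL0
  have hL0ge : X ≤ L0 := Nat.le_ceil X
  have hL0le : (L0 : ℝ) ≤ 2 * X := by
    have := Nat.ceil_lt_add_one (by linarith : 0 ≤ X)
    linarith
  have hL0one : (1 : ℝ) ≤ L0 := by linarith
  have hL0pos' : (0 : ℝ) < L0 := by linarith
  have hL0pos : 0 < L0 := by exact_mod_cast hL0pos'
  have : NeZero L0 := ⟨hL0pos.ne'⟩
  set κ0 : ℝ := K1 * lam ^ 2 * l with hκ0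
  have hκ00 : 0 < κ0 := by positivity
  have hκ0ge : lam ^ 2 ≤ κ0 := by
    rw [hκ0]
    have h1 : (1 : ℝ) ≤ K1 * l := by nlinarith
    calc lam ^ 2 = lam ^ 2 * 1 := by ring
      _ ≤ lam ^ 2 * (K1 * l) := by gcongr
      _ = K1 * lam ^ 2 * l := by ring
  have hκ0' : κ0 ≤ κ := by
    refine le_trans ?_ hκ
    rw [hκ0]
    have : 0 ≤ lam ^ 2 * l := by positivity
    nlinarith
  have hκ01 : κ0 ≤ 1 := hκ0'.trans hκ1
  have hκpos : 0 < κ := lt_of_lt_of_le hκ00 hκ0'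
  have hX2 : lam⁻¹ ^ 5 ≤ X := by
    rw [hX, ← Real.rpow_natCast, ← Real.rpow_neg_one, ← Real.rpow_mul hlam.le]
    apply Real.rpow_le_rpow_of_exponent_ge hlam hlam1
    push_cast
    linarith
  have hinv1 : 1 ≤ lam⁻¹ := (one_le_inv₀ hlam).2 hlam1
  have hL05 : lam⁻¹ ^ 5 ≤ (L0 : ℝ) := hX2.trans hL0ge
  have hκL0 : 1 / (4 * (L0 : ℝ) ^ 2) ≤ κ0 := by
    refine le_trans ?_ hκ0ge
    rw [div_le_iff₀ (by positivity)]
    have h2 : (lam⁻¹ ^ 5) ^ 2 ≤ (L0 : ℝ) ^ 2 := pow_le_pow_left₀ (by positivity) hL05 2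
    have h3 : 1 ≤ lam ^ 2 * (lam⁻¹ ^ 5) ^ 2 := by
      have h4 : lam ^ 2 * (lam⁻¹ ^ 5) ^ 2 = lam⁻¹ ^ 8 := by
        field_simp
      rw [h4]
      exact one_le_pow₀ hinv1
    have h5 : lam ^ 2 * (lam⁻¹ ^ 5) ^ 2 ≤ lam ^ 2 * (L0 : ℝ) ^ 2 := by gcongr
    linarith
  obtain ⟨Es, _, G0, hG0, hP0, hw0⟩ :=
    Good2.good2 μ hμ lam (1 / 8) κ0 hlam (by norm_num) le_rfl hκ00 L0 hκL0
  have hap0 : ∀ V ∈ G0, Mc.ApE lam (κ0 * (1 / 8)) Es V := by
    intro V hV
    obtain ⟨_, w, hw1, hw2⟩ := hw0 V hV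
    exact Mc.of_sol lam κ0 (1 / 8) Es hκ00.le (by norm_num) V w hw1 hw2
  -- the probability
  set ε0 : ℝ := 2 * (L0 : ℝ) ^ 2 * Real.exp (-((1 / 8) ^ 2 * κ0 / (A * lam ^ 2))) with hε0
  have hexp0 : Real.exp (-((1 / 8) ^ 2 * κ0 / (A * lam ^ 2))) = lam ^ (20 * C + 4) := by
    rw [← exp_log lam _ hlam, hκ0, hK1, ← hl]
    congr 2
    field_simp
    norm_num
  have hε00 : 0 ≤ ε0 := by positivity
  have hXpow : X * ε0 ≤ lam := by
    rw [hε0, hexp0]
    have h2 : X ^ 4 * lam ^ (20 * C + 4) = lam ^ (4 : ℕ) := by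
      rw [hX, ← Real.rpow_natCast, ← Real.rpow_mul hlam.le, ← Real.rpow_add hlam,
        ← Real.rpow_natCast]
      congr 1
      push_cast
      ring
    have h3 := xstep X L0 _ lam (by linarith) hL0pos'.le hL0le
      (Real.rpow_pos_of_pos hlam (20 * C + 4)).le h2 hlam hlam4
    refine le_trans ?_ h3
    have h4 : (L0 : ℝ) ^ 2 ≤ (L0 : ℝ) ^ 3 := pow_le_pow_right₀ hL0one (by norm_num)
    have h5 : 0 ≤ lam ^ (20 * C + 4) := (Real.rpow_pos_of_pos hlam (20 * C + 4)).le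
    gcongr
  have hε0lam : ε0 ≤ lam := by
    have h1 : 1 * ε0 ≤ X * ε0 := mul_le_mul_of_nonneg_right hX1 hε00
    linarith
  -- the energy
  have hEs : -Es ≤ (20488 + 4 * K1) * (lam ^ 2 * l) := by
    have h1 := Pool.Agent.Zk60.E2.Es.lower μ hμ hm lam κ0 hlam hκ00 hκ01 L0 hκL0 Es G0 hG0
      (by
        have h2 : 1 - ε0 ≤ (Measure.pi fun _ : AE.T 2 L0 => μ).real G0 := hP0
        linarith)
      (fun V hV => (hw0 V hV).2)
    have h3 : Real.log (1 / κ0) ≤ 2 * l := by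
      have h4 : 1 / κ0 ≤ (1 / lam) ^ 2 := by
        rw [one_div_pow]
        exact one_div_le_one_div_of_le (by positivity) hκ0ge
      have h5 := Real.log_le_log (by positivity) h4
      rw [Real.log_pow] at h5
      push_cast at h5
      rw [hl]
      exact h5
    have h6 : 2 * lam / (L0 : ℝ) ≤ 2 * (lam ^ 2 * l) := by
      rw [div_le_iff₀ hL0pos']
      have h7 : 1 ≤ lam * (L0 : ℝ) := by
        have h8 : lam * lam⁻¹ ^ 5 ≤ lam * (L0 : ℝ) := by gcongr
        have h9 : lam * lam⁻¹ ^ 5 = lam⁻¹ ^ 4 := by field_simp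
        have h10 : 1 ≤ lam⁻¹ ^ 4 := one_le_pow₀ hinv1
        linarith
      calc 2 * lam = 2 * lam * 1 * 1 := by ring
        _ ≤ 2 * lam * (lam * (L0 : ℝ)) * l := by gcongr
        _ = 2 * (lam ^ 2 * l) * L0 := by ring
    have hL2 : 0 < lam ^ 2 := by positivity
    have h7 : 4 * lam ^ 2 * (768 + 256 * Real.log (1 / κ0)) ≤ 5120 * (lam ^ 2 * l) := by
      have h8 : 768 + 256 * Real.log (1 / κ0) ≤ 1280 * l := by linarith
      calc 4 * lam ^ 2 * (768 + 256 * Real.log (1 / κ0)) ≤ 4 * lam ^ 2 * (1280 * l) := by gcongr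
        _ = _ := by ring
    have h8 : κ0 = K1 * (lam ^ 2 * l) := by rw [hκ0]; ring
    rw [h8] at h1 h7
    refine h1.trans ?_
    linarith
  have hbase : 2 / (κ / 2 * lam) ≤ lam⁻¹ ^ 5 := by
    have h1 : 4 * lam ^ 4 ≤ κ := by
      have h2 : 4 * lam ^ 4 ≤ lam ^ 2 := by
        have : lam ^ 2 ≤ 1 / 4 := by nlinarith
        nlinarith [sq_nonneg lam]
      linarith
    rw [div_le_iff₀ (by positivity)]
    have h3 : lam⁻¹ ^ 5 * (κ / 2 * lam) = κ / (2 * lam ^ 4) := by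
      field_simp
    rw [h3, le_div_iff₀ (by positivity)]
    linarith
  have hpow : (2 / (κ / 2 * lam)) ^ C ≤ X := by
    calc (2 / (κ / 2 * lam)) ^ C ≤ (lam⁻¹ ^ 5) ^ C :=
          Real.rpow_le_rpow (by positivity) hbase hC0.le
      _ = X := by
          rw [hX, ← Real.rpow_natCast, ← Real.rpow_neg_one, ← Real.rpow_mul hlam.le,
            ← Real.rpow_mul hlam.le]
          congr 1
          push_cast
          ring
  have hT := Mc.torusBound μ lam (κ0 * (1 / 8)) Es ε0 G0 hG0 hP0 hap0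
  have hb := Hb μ hreg lam hlam hlam1 L0 (Es - κ0 * (1 / 8)) ε0 hε00 hT (κ / 2) (by positivity)
    (by linarith) (hpow.trans hL0ge) (by
      calc (2 / (κ / 2 * lam)) ^ C * ε0 ≤ X * ε0 := by gcongr
        _ ≤ 1 := by linarith)
  filter_upwards [hb] with ω hω
  refine LO.Main.dec_mono _ _ _ _ _ _ hω ?_ ?_
  · apply Set.Iic_subset_Iic.2
    have h1 : (42000 + 10 * K1) * (lam ^ 2 * l) ≤ κ := by
      refine le_trans (le_of_eq ?_) hκ
      ring
    have h2 : κ0 = K1 * (lam ^ 2 * l) := by rw [hκ0]; ring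
    have h3 : 0 ≤ lam ^ 2 * l := by positivity
    have h4 : 0 ≤ K1 * (lam ^ 2 * l) := by positivity
    rw [h2]
    linarith
  · -- rate
    have hbase : 2 ≤ 2 / (κ * lam) := by
      rw [le_div_iff₀ (by positivity)]
      have : κ * lam ≤ 1 := by nlinarith
      linarith
    have hX : 0 < Real.log (2 / (κ * lam)) := Real.log_pos (by linarith)
    have hX2 : Real.log (2 / (κ / 2 * lam)) ≤ 2 * Real.log (2 / (κ * lam)) := by
      have e1 : 2 / (κ / 2 * lam) = 2 * (2 / (κ * lam)) := by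
        field_simp
      rw [e1, Real.log_mul (by norm_num) (by positivity)]
      have e2 := Real.log_le_log (by norm_num) hbase
      linarith
    have hX2pos : 0 < Real.log (2 / (κ / 2 * lam)) := by
      apply Real.log_pos
      have e1 : 2 / (κ / 2 * lam) = 2 * (2 / (κ * lam)) := by
        field_simp
      rw [e1]
      linarith
    have hsq : Real.sqrt κ / 2 ≤ Real.sqrt (κ / 2) := by
      rw [Real.le_sqrt (by positivity) (by positivity), div_pow, Real.sq_sqrt hκpos.le]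
      linarith
    have hkC' : k * (4 * C) ≤ 1 := by
      rwa [le_div_iff₀ (by positivity)] at hkC
    rw [div_le_div_iff₀ hX (by positivity)]
    have e5 : k * Real.sqrt κ * (C * Real.log (2 / (κ / 2 * lam))) ≤
        k * Real.sqrt κ * (C * (2 * Real.log (2 / (κ * lam)))) := by
      have := Real.sqrt_nonneg κ
      gcongr
    refine e5.trans ?_
    have e6 : k * Real.sqrt κ * (C * (2 * Real.log (2 / (κ * lam)))) =
        (k * (4 * C)) * (Real.sqrt κ / 2) * Real.log (2 / (κ * lam)) := by ring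
    rw [e6]
    have h0 := Real.sqrt_nonneg κ
    calc (k * (4 * C)) * (Real.sqrt κ / 2) * Real.log (2 / (κ * lam))
        ≤ 1 * (Real.sqrt κ / 2) * Real.log (2 / (κ * lam)) := by gcongr
      _ ≤ Real.sqrt (κ / 2) * Real.log (2 / (κ * lam)) := by
          rw [one_mul]
          exact mul_le_mul_of_nonneg_right hsq hX.le

end Pool.Agent.Zk60.E2.Fin2
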